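import Mathlib

/-!
# Weakly étale algebras over fields (modules E1 and W1 of MP_657af9_ag)
-/

open CategoryTheory AlgebraicGeometry Limits TopologicalSpace Opposite TensorProduct

noncomputable section

namespace Pool.Agent.H49.MP

/-- if `(c ⊗ 1 - 1 ⊗ c) u = 0` with `u ≠ 0` then `c` is algebraic -/
lemma isIntegral_of_tmul_mul_eq {k K : Type*} [Field k] [Field K] [Algebra k K]
    (c : K) (u : K ⊗[k] K) (hu : u ≠ 0)
    (h : (c ⊗ₜ[k] (1 : K)) * u = ((1 : K) ⊗ₜ[k] c) * u) : IsIntegral k c := by
  classical
  -- left support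
  let L (f : K →ₗ[k] k) : K ⊗[k] K →ₗ[k] K := TensorProduct.rid k K ∘ₗ f.lTensor K
  have hL (f : K →ₗ[k] k) (x y : K) : L f (x ⊗ₜ y) = f y • x := by simp [L]
  let N : Submodule k K := Submodule.span k (Set.range fun f => L f u)
  have hN : N ≠ ⊥ := by
    intro hb
    apply hu
    -- all contractions vanish
    let b := Module.Free.chooseBasis k K
    have h0 : ∀ f, L f u = 0 := by
      intro f
      have : L f u ∈ N := Submodule.subset_span ⟨f, rfl⟩
      rwa [hb, Submodule.mem_bot] at this
    apply (b.baseChange K).repr.injective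
    rw [map_zero]
    ext i
    have h1 : ∀ w : K ⊗[k] K, (b.baseChange K).repr w i = L (b.coord i) w := by
      intro w
      induction w with
      | zero => simp
      | tmul x y => rw [hL]; simp [Algebra.smul_def]
      | add x y hx hy => simp [hx, hy]
    rw [h1, h0]
    simp
  have hfg : N.FG := by
    obtain ⟨s, hs⟩ : ∃ s : Finset K, ∀ f, L f u ∈ Submodule.span k (s : Set K) := by
      clear h hu hN N
      induction u with
      | zero => exact ⟨∅, fun f => by simp⟩
      | tmul x y => exact ⟨{x}, fun f => by
          rw [hL]; exact Submodule.smul_mem _ _ (Submodule.subset_span (by simp))⟩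
      | add x y hx hy =>
        obtain ⟨s, hs⟩ := hx
        obtain ⟨t, ht⟩ := hy
        refine ⟨s ∪ t, fun f => ?_⟩
        rw [map_add]
        refine Submodule.add_mem _ (Submodule.span_mono ?_ (hs f)) (Submodule.span_mono ?_ (ht f))
        · simp
        · simp
    have hle : N ≤ Submodule.span k (s : Set K) := by
      rw [Submodule.span_le]
      rintro _ ⟨f, rfl⟩
      exact hs f
    have : Module.Finite k (Submodule.span k (s : Set K)) := Module.Finite.span_finset k s
    exact Submodule.FG.of_le (Submodule.fg_span s.finite_toSet) hle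
  have hstab : ∀ n ∈ N, c • n ∈ N := by
    intro n hn
    induction hn using Submodule.span_induction with
    | mem x hx =>
      obtain ⟨f, rfl⟩ := hx
      have h2 : c • L f u = L (f ∘ₗ LinearMap.mulLeft k c) u := by
        have e1 : ∀ w : K ⊗[k] K, c • L f w = L f ((c ⊗ₜ[k] (1 : K)) * w) := by
          intro w
          induction w with
          | zero => simp
          | tmul x y => simp [L, Algebra.smul_def, mul_left_comm]
          | add x y hx hy => rw [map_add, smul_add, hx, hy, mul_add, map_add]
        have e2 : ∀ w : K ⊗[k] K, L (f ∘ₗ LinearMap.mulLeft k c) w =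
            L f (((1 : K) ⊗ₜ[k] c) * w) := by
          intro w
          induction w with
          | zero => simp
          | tmul x y => simp [L]
          | add x y hx hy => rw [map_add, hx, hy, mul_add, map_add]
        rw [e1, e2, h]
      show c • L f u ∈ N
      rw [h2]
      exact Submodule.subset_span ⟨_, rfl⟩
    | zero => simp
    | add x y _ _ hx hy => rw [smul_add]; exact N.add_mem hx hy
    | smul a x _ hx => rw [smul_comm]; exact N.smul_mem a hx
  exact isIntegral_of_smul_mem_submodule N hN hfg c hstab

/-- the key property of a weakly étale algebra -/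
lemma exists_mul_eq_of_weaklyEtale (k A : Type*) [CommRing k] [CommRing A] [Algebra k A]
    [Algebra.WeaklyEtale k A] (x : A ⊗[k] A)
    (hx : Algebra.TensorProduct.lmul' k (S := A) x = 0) :
    ∃ y, Algebra.TensorProduct.lmul' k (S := A) y = 0 ∧ x = x * y := by
  have hfl := Algebra.WeaklyEtale.flat_lmul' k A
  let φ : A ⊗[k] A →+* A := (Algebra.TensorProduct.lmul' k (S := A) : A ⊗[k] A →ₐ[k] A)
  have hφ : φ.Flat := hfl
  have hsurj : Function.Surjective φ := fun a => ⟨a ⊗ₜ 1, by simp [φ]⟩
  let I : Ideal (A ⊗[k] A) := RingHom.ker φ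
  have hI : I.Pure := by
    letI : Algebra (A ⊗[k] A) A := φ.toAlgebra
    have : Module.Flat (A ⊗[k] A) A := hφ
    have e : (A ⊗[k] A ⧸ I) ≃ₗ[A ⊗[k] A] A :=
      (Ideal.quotientKerAlgEquivOfSurjective (f := Algebra.ofId (A ⊗[k] A) A) hsurj).toLinearEquiv
    exact Module.Flat.of_linearEquiv e
  obtain ⟨y, hy, h⟩ := Ideal.exists_eq_mul_of_pure (I := I) (x := x) hx
  exact ⟨y, hy, h⟩

/-- A weakly étale algebra over a field which is a local ring is a field, and if the base field
is algebraically closed it is equal to the base field. -/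
lemma bijective_of_weaklyEtale_local (k A : Type*) [Field k] [IsAlgClosed k] [CommRing A]
    [Algebra k A] [IsLocalRing A] [Algebra.WeaklyEtale k A] :
    Function.Bijective (algebraMap k A) := by
  classical
  let κ := IsLocalRing.ResidueField A
  let π : A →ₐ[k] κ := IsScalarTower.toAlgHom k A κ
  have hπ : Function.Surjective π := IsLocalRing.residue_surjective
  -- for each `b` there is `u` killed by `b ⊗ 1 - 1 ⊗ b` with image `1`
  have key : ∀ b : A, ∃ u : A ⊗[k] A, Algebra.TensorProduct.lmul' k (S := A) u = 1 ∧
      (b ⊗ₜ[k] (1 : A)) * u = ((1 : A) ⊗ₜ[k] b) * u := by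
    intro b
    obtain ⟨y, hy, h⟩ := exists_mul_eq_of_weaklyEtale k A
      (b ⊗ₜ[k] (1 : A) - (1 : A) ⊗ₜ[k] b) (by simp)
    refine ⟨1 - y, by rw [map_sub, hy]; simp, ?_⟩
    rw [← sub_eq_zero, ← sub_mul, mul_sub, mul_one, ← h, sub_self]
  -- the residue field is `k`
  have hκ : Function.Surjective (algebraMap k κ) := by
    have : Algebra.IsIntegral k κ := by
      refine ⟨fun c => ?_⟩
      obtain ⟨b, rfl⟩ := hπ c
      obtain ⟨u, hu1, hu⟩ := key b
      let P : A ⊗[k] A →ₐ[k] κ ⊗[k] κ := Algebra.TensorProduct.map π π
      have hP : ∀ w, Algebra.TensorProduct.lmul' k (S := κ) (P w) =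
          π (Algebra.TensorProduct.lmul' k (S := A) w) := by
        intro w
        induction w with
        | zero => simp
        | tmul x y => simp [P]
        | add x y hx hy => rw [map_add, map_add, hx, hy, map_add, map_add]
      refine isIntegral_of_tmul_mul_eq (π b) (P u) ?_ ?_
      · intro h0
        have := hP u
        rw [h0, hu1] at this
        simp at this
      · have := congrArg P hu
        simpa [P] using this
    exact (IsAlgClosed.algebraMap_bijective_of_isIntegral (k := k) (K := κ)).2
  -- the maximal ideal is zero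
  have hm : ∀ x : A, π x = 0 → x = 0 := by
    intro x hx
    let e : κ ≃ₐ[k] k := (AlgEquiv.ofBijective (Algebra.ofId k κ)
      ⟨(algebraMap k κ).injective, hκ⟩).symm
    let ρ : A →ₐ[k] A := (Algebra.ofId k A).comp (e.toAlgHom.comp π)
    let Q : A ⊗[k] A →ₐ[k] A := Algebra.TensorProduct.lift (AlgHom.id k A) ρ
      (fun _ _ => Commute.all _ _)
    obtain ⟨u, hu1, hu⟩ := key x
    have h1 := congrArg Q hu
    have h2 : Q (x ⊗ₜ[k] (1 : A)) = x := by simp [Q]
    have h3 : Q ((1 : A) ⊗ₜ[k] x) = 0 := by simp [Q, ρ, hx]
    rw [map_mul, map_mul, h2, h3, zero_mul] at h1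
    have hπρ : ∀ y, π (ρ y) = π y := by
      intro y
      have : π (Algebra.ofId k A (e (π y))) = π y := by
        have h5 : ∀ z : k, π (Algebra.ofId k A z) = algebraMap k κ z := by
          intro z
          simp [π, Algebra.ofId_apply, IsScalarTower.algebraMap_apply k A κ]
        rw [h5]
        exact (e.symm_apply_apply (π y) : _)
      exact this
    have hQ : ∀ w, π (Q w) = π (Algebra.TensorProduct.lmul' k (S := A) w) := by
      intro w
      induction w with
      | zero => simp
      | tmul x y => simp [Q, hπρ]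
      | add x y hx hy => rw [map_add, map_add, hx, hy, map_add, map_add]
    have hunit : IsUnit (Q u) := by
      have : π (Q u) ≠ 0 := by rw [hQ, hu1, map_one]; exact one_ne_zero
      by_contra hnu
      apply this
      exact (IsLocalRing.residue_eq_zero_iff (Q u)).2 ((IsLocalRing.mem_maximalIdeal _).2 hnu)
    exact (hunit.mul_left_eq_zero).1 h1
  refine ⟨(algebraMap k A).injective, fun a => ?_⟩
  obtain ⟨z, hz⟩ := hκ (π a)
  refine ⟨z, ?_⟩
  rw [← sub_eq_zero]
  apply hm
  rw [map_sub, ← hz, sub_eq_zero]
  exact (IsScalarTower.algebraMap_apply k A κ z).symm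

end Pool.Agent.H49.MP
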