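import Pool.Agent.H49.MP.WE

/-!
# Weakly étale schemes over fields (modules E1 and W1 of MP_657af9_ag)
-/

open CategoryTheory AlgebraicGeometry Limits TopologicalSpace Opposite TensorProduct

noncomputable section

namespace Pool.Agent.H49.MP

/-- the weakly étale property of an affine morphism -/
lemma weaklyEtale_SpecMap_iff (R S : Type) [CommRing R] [CommRing S] [Algebra R S] :
    WeaklyEtale (Spec.map (CommRingCat.ofHom (algebraMap R S))) ↔ Algebra.WeaklyEtale R S := by
  rw [AlgebraicGeometry.weaklyEtale_iff, Algebra.weaklyEtale_iff, Flat.SpecMap_iff]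
  have h1 : (CommRingCat.Hom.hom (CommRingCat.ofHom (algebraMap R S))).Flat ↔ Module.Flat R S :=
    RingHom.flat_algebraMap_iff
  rw [h1]
  have h2 : Flat (pullback.diagonal (Spec.map (CommRingCat.ofHom (algebraMap R S)))) ↔
      (Algebra.TensorProduct.lmul' R (S := S) : S ⊗[R] S →ₐ[R] S).toRingHom.Flat := by
    rw [diagonal_SpecMap, MorphismProperty.cancel_right_of_respectsIso (P := @Flat),
      Flat.SpecMap_iff]
    rfl
  rw [h2]

/-- the multiplication map of a separable extension is flat -/
lemma flat_lmul'_of_isSeparable (k K : Type*) [Field k] [Field K] [Algebra k K]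
    [Algebra.IsSeparable k K] : (Algebra.TensorProduct.lmul' k (S := K)).Flat := by
  classical
  let φ : K ⊗[k] K →ₐ[k] K := Algebra.TensorProduct.lmul' k (S := K)
  let J : Ideal (K ⊗[k] K) := RingHom.ker φ
  have hJ : J.IsPrime := RingHom.ker_isPrime _
  -- elements of `J` are killed by elements outside `J`
  have key : ∀ x ∈ J, ∃ h : K ⊗[k] K, h ∉ J ∧ h * x = 0 := by
    have hgen : J = Ideal.span (Set.range fun s : K => (1 : K) ⊗ₜ[k] s - s ⊗ₜ[k] (1 : K)) :=
      (KaehlerDifferential.span_range_eq_ideal k K).symm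
    intro x hx
    rw [hgen] at hx
    induction hx using Submodule.span_induction with
    | mem x hx =>
      obtain ⟨a, rfl⟩ := hx
      let f : Polynomial k := minpoly k a
      have hsep : f.Separable := Algebra.IsSeparable.isSeparable k a
      have hroot : (f.map (algebraMap k K)).IsRoot a := by
        rw [Polynomial.IsRoot, Polynomial.eval_map_algebraMap]
        exact minpoly.aeval k a
      obtain ⟨g, hg⟩ := Polynomial.dvd_iff_isRoot.2 hroot
      let ψ : Polynomial K →+* K ⊗[k] K :=
        Polynomial.eval₂RingHom (Algebra.TensorProduct.includeLeftRingHom) ((1 : K) ⊗ₜ[k] a)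
      refine ⟨ψ g, ?_, ?_⟩
      · intro hmem
        have h1 : φ (ψ g) = g.eval a := by
          have : (φ : K ⊗[k] K →+* K).comp ψ = Polynomial.evalRingHom a := by
            ext <;> simp [φ, ψ]
          exact congrFun (congrArg DFunLike.coe this) g
        have h2 : g.eval a ≠ 0 := by
          have h3 := hsep.aeval_derivative_ne_zero (x := a) (minpoly.aeval k a)
          rw [← Polynomial.eval_map_algebraMap, ← Polynomial.derivative_map, hg,
            Polynomial.derivative_mul] at h3
          simpa using h3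
        exact h2 (h1 ▸ hmem)
      · have h1 : ψ (f.map (algebraMap k K)) = 0 := by
          have : ψ.comp (Polynomial.mapRingHom (algebraMap k K)) =
              (Algebra.TensorProduct.includeRight (R := k) (A := K) (B := K) :
                K →+* K ⊗[k] K).comp (Polynomial.aeval a : Polynomial k →ₐ[k] K) := by
            ext x
            · simp [ψ]
            · simp [ψ]
          have h2 := congrFun (congrArg DFunLike.coe this) f
          simp only [RingHom.comp_apply] at h2
          have h3 : ((Polynomial.aeval a : Polynomial k →ₐ[k] K) : Polynomial k →+* K) f = 0 :=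
            minpoly.aeval k a
          rw [h3, map_zero] at h2
          exact h2
        rw [hg, map_mul] at h1
        have h4 : ψ (Polynomial.X - Polynomial.C a) = (1 : K) ⊗ₜ[k] a - a ⊗ₜ[k] (1 : K) := by
          simp [ψ]
        rw [h4] at h1
        rw [mul_comm]
        exact h1
    | zero => exact ⟨1, fun h => hJ.ne_top ((Ideal.eq_top_iff_one _).2 h), by simp⟩
    | add x y _ _ hx hy =>
      obtain ⟨h, hh, h1⟩ := hx
      obtain ⟨h', hh', h1'⟩ := hy
      refine ⟨h * h', fun hm => (hJ.mem_or_mem hm).elim hh hh', ?_⟩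
      rw [mul_add, mul_assoc h h' y, h1', mul_comm h h', mul_assoc h' h x, h1]
      simp
    | smul a x _ hx =>
      obtain ⟨h, hh, h1⟩ := hx
      refine ⟨h, hh, ?_⟩
      rw [smul_eq_mul, mul_left_comm, h1, mul_zero]
  let _ : Algebra (K ⊗[k] K) K := (φ : K ⊗[k] K →+* K).toAlgebra
  have halg : ∀ x, algebraMap (K ⊗[k] K) K x = φ x := fun _ => rfl
  have hloc : IsLocalization J.primeCompl K := by
    rw [isLocalization_iff]
    refine ⟨fun y => ?_, fun z => ⟨(z ⊗ₜ 1, 1), ?_⟩, fun {x y} hxy => ?_⟩
    · exact (Ne.isUnit (show φ y ≠ 0 from y.2))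
    · simp [halg, φ]
    · obtain ⟨h, hh, h1⟩ := key (x - y) (by
        show φ (x - y) = 0
        rw [map_sub, sub_eq_zero]; exact hxy)
      exact ⟨⟨h, hh⟩, by rw [mul_sub, sub_eq_zero] at h1; exact h1⟩
  have : Module.Flat (K ⊗[k] K) K := IsLocalization.flat K J.primeCompl
  exact this

theorem weaklyEtale_of_isSeparable (k K : Type) [Field k] [Field K] [Algebra k K]
    [Algebra.IsSeparable k K] :
    WeaklyEtale (Spec.map (CommRingCat.ofHom (algebraMap k K))) :=
  (weaklyEtale_SpecMap_iff k K).2 ⟨inferInstance, flat_lmul'_of_isSeparable k K⟩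

/-- The canonical morphism `Spec O_{W,w} ⟶ W` is flat. -/
instance flat_fromSpecStalk (W : Scheme.{0}) (w : W) : Flat (W.fromSpecStalk w) := by
  obtain ⟨_, ⟨U, hU, rfl⟩, hxU, -⟩ := W.isBasis_affineOpens.exists_subset_of_mem_open
    (Set.mem_univ w) isOpen_univ
  rw [← hU.fromSpecStalk_eq_fromSpecStalk hxU, IsAffineOpen.fromSpecStalk]
  have : Flat (Spec.map (W.presheaf.germ U w hxU)) := by
    rw [Flat.SpecMap_iff]
    let _ : Algebra Γ(W, U) (W.presheaf.stalk w) := (W.presheaf.germ U w hxU).hom.toAlgebra
    have := hU.isLocalization_stalk ⟨w, hxU⟩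
    exact (IsLocalization.flat (W.presheaf.stalk w) (hU.primeIdealOf ⟨w, hxU⟩).asIdeal.primeCompl :
      Module.Flat Γ(W, U) (W.presheaf.stalk w))
  infer_instance

/-- The canonical morphism `Spec O_{W,w} ⟶ W` is weakly étale. -/
instance weaklyEtale_fromSpecStalk (W : Scheme.{0}) (w : W) :
    WeaklyEtale (W.fromSpecStalk w) where

/-- A non-empty weakly étale scheme over an algebraically closed field has a section. -/
theorem exists_section_of_weaklyEtale {k : Type} [Field k] [IsAlgClosed k] {V : Scheme.{0}}
    (f : V ⟶ Spec (CommRingCat.of k)) [WeaklyEtale f] (v : V) :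
    ∃ s : Spec (CommRingCat.of k) ⟶ V, s ≫ f = 𝟙 _ ∧ ∀ x, s x = v := by
  obtain ⟨φ, hφ⟩ := Spec.map_surjective (V.fromSpecStalk v ≫ f)
  let _ : Algebra k (V.presheaf.stalk v) := φ.hom.toAlgebra
  have hφ' : φ = CommRingCat.ofHom (algebraMap k (V.presheaf.stalk v)) := rfl
  have hwe : WeaklyEtale (Spec.map (CommRingCat.ofHom (algebraMap k (V.presheaf.stalk v)))) := by
    rw [← hφ', hφ]
    infer_instance
  rw [weaklyEtale_SpecMap_iff] at hwe
  have hbij := bijective_of_weaklyEtale_local k (V.presheaf.stalk v)
  have : IsIso φ := by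
    rw [hφ']
    exact (ConcreteCategory.isIso_iff_bijective _).2 hbij
  refine ⟨Spec.map (inv φ) ≫ V.fromSpecStalk v, ?_, fun x => ?_⟩
  · rw [Category.assoc, ← hφ, ← Spec.map_comp, IsIso.hom_inv_id, Spec.map_id]
  · rw [Scheme.Hom.comp_apply]
    have hss : Subsingleton (Spec (V.presheaf.stalk v)) := by
      have hk : Subsingleton (Spec (CommRingCat.of k)) :=
        inferInstanceAs (Subsingleton (PrimeSpectrum k))
      exact (Scheme.homeoOfIso (asIso (Spec.map φ))).toEquiv.subsingleton
    have : Spec.map (inv φ) x = IsLocalRing.closedPoint (V.presheaf.stalk v) :=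
      Subsingleton.elim _ _
    rw [this]
    exact Scheme.fromSpecStalk_closedPoint

end Pool.Agent.H49.MP
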